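import Mathlib

/-!
Square-tiled surfaces in strata of quadratic differentials: definitions for the final theorem on
MP_365f4a_gt (large genus asymptotics of Masur-Veech volumes of odd strata).
-/

namespace Pool.Agent.Helper71.MVN

open Filter Topology

/-- The orbit of `x` under the permutation `v`. -/
def orb {X : Type} (v : Equiv.Perm X) (x : X) : Set X := {y | v.SameCycle x y}

/-- A square-tiled surface with labelled singularities.

`X` is the set of oriented squares, i.e. of pairs (a square of the tiling, one of the two ways to
put it upright, which differ by the rotation by the angle `π`):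
* `r x` is the same square rotated by `π`;
* `a x` is the oriented square whose right side is glued to the right side of `x` (so that the
  right neighbour of `x` is `r (a x)`);
* `b x` is the oriented square whose top side is glued to the top side of `x` (so that the upper
  neighbour of `x` is `r (b x)`).
All gluings are translations or rotations by `π`. The permutation `a * r * b` turns an oriented
square by the angle `π` around its top right corner (first to the square above, then to the square
on its right, seen rotated by `π`). So the vertices of the tiling are the orbits of `a * r * b`,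
and the cone angle at a vertex is `π` times the number of elements of the orbit.
The singular points are labelled by `ι`: `c i` is the orbit of the point with label `i`, its cone
angle is `π * K i`, and all other vertices have cone angle `2 π`. -/
structure IsSquareTiled {X ι : Type} (K : ι → ℕ) (a r b : Equiv.Perm X) (c : ι → Set X) :
    Prop where
  invol : ∀ x, a (a x) = x ∧ r (r x) = x ∧ b (b x) = x
  free : ∀ x, a x ≠ x ∧ r x ≠ x ∧ b x ≠ x
  connected : ∀ x y, ∃ g ∈ Subgroup.closure ({a, r, b} : Set (Equiv.Perm X)), g x = y
  vertex : ∀ i, ∃ x, c i = orb (a * r * b) x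
  angle : ∀ i, (c i).ncard = K i
  labels : Function.Injective c
  flat : ∀ x, (∀ i, x ∉ c i) → (orb (a * r * b) x).ncard = 2

/-- The number of square-tiled surfaces made of `L` squares whose singular points are labelled by
`ι` and have the cone angles `π * K i`; each isomorphism class is counted with the weight
`1 / |Aut|` (the number of all such structures on the set of `2 L` oriented squares, divided by
`(2 L)!`). -/
noncomputable def count {ι : Type} (K : ι → ℕ) (L : ℕ) : ℝ :=
  (Nat.card {q : Equiv.Perm (Fin (2 * L)) × Equiv.Perm (Fin (2 * L)) × Equiv.Perm (Fin (2 * L)) ×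
    (ι → Set (Fin (2 * L))) // IsSquareTiled K q.1 q.2.1 q.2.2.1 q.2.2.2} : ℝ) /
    ((2 * L).factorial : ℝ)

/-- The cone angles divided by `π` in the stratum `Q(k_1, ..., k_n, -1^p)`: `κ_i = k_i + 2` at the
zeros, `1` at the poles. -/
def angles {n : ℕ} (k : Fin n → ℕ) (p : ℕ) : Fin n ⊕ Fin p → ℕ :=
  Sum.elim (fun i => k i + 2) (fun _ => 1)

/-- `2 d N^{-d}` times the number of square-tiled surfaces in the stratum `Q(k_1, ..., k_n, -1^p)`
of genus `g` made of at most `2 N` squares of size `1/2 × 1/2`; here `d = 2 g - 2 + n + p`. -/
noncomputable def volN (g : ℕ) {n : ℕ} (k : Fin n → ℕ) (p N : ℕ) : ℝ :=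
  2 * ((2 * g + n + p - 2 : ℕ) : ℝ) * (∑ L ∈ Finset.range (2 * N + 1), count (angles k p) L) /
    (N : ℝ) ^ (2 * g + n + p - 2)

/-- The Masur-Veech volume of `Q(k_1, ..., k_n, -1^p)` (genus `g`): the limit of `volN`. -/
noncomputable def Vol (g : ℕ) {n : ℕ} (k : Fin n → ℕ) (p : ℕ) : ℝ :=
  limUnder atTop (fun N : ℕ => volN g k p N)

/-- The number `ε(p, k)` of the problem file. -/
noncomputable def eps (g : ℕ) {n : ℕ} (k : Fin n → ℕ) (p : ℕ) : ℝ :=
  Vol g k p / (4 / Real.pi * ∏ i, ((2 : ℝ) ^ (k i + 2) / ((k i : ℝ) + 2))) - 1

end Pool.Agent.Helper71.MVN
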