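import Pool.Agent.Helper71.MVN.Final
import Pool.Agent.Helper29.MVN.Fin
import Pool.Agent.Helper60.MV.B.Asm
import Pool.Agent.Helper84.MVA.Final
import Pool.Agent.Helper12.MVP.Main
import Pool.Agent.Helper52.MVD.Final
import Pool.Agent.Helper34.MVU.Fin
import Pool.Agent.Helper34.MVU.MainE
import Pool.Agent.Helper62.MVC2.Fin
import Pool.Agent.Helper72.MVAA.Final

/-!
Project MV: the blocks together.
-/

namespace Pool.Agent.Helper71.MVN

open Finset Filter Topology Pool.Agent.Helper60.MV

/-- block P (with block D) -/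
theorem blockP : Pool.Agent.Helper62.MVC2.PH := fun K hK E hE =>
  Pool.Agent.Helper12.MVP.blockP_of_D K
    (fun N hN s hs => Pool.Agent.Helper52.MVD.blockD K hK E hE N hN s hs)

/-- everything that block N needs -/
theorem hyp : Pool.Agent.Helper29.MVN.Hyp where
  blockU := Pool.Agent.Helper34.MVU.blockU
  mainE_even := Pool.Agent.Helper34.MVU.mainE_even
  mainE_odd := Pool.Agent.Helper34.MVU.mainE_odd
  C_up := fun K hK E hE hρ => Pool.Agent.Helper62.MVC2.C_up_of blockP K hK E hE hρ
  C_rec := fun K hK E hE hρ B hB h => Pool.Agent.Helper62.MVC2.C_rec_of blockP K hK E hE hρ B hB h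
  C_low := fun K hK E hE hρ B hB h => Pool.Agent.Helper62.MVC2.C_low_of blockP K hK E hE hρ B hB h
  UB_odd := fun K hK E hE hodd => Pool.Agent.Helper62.MVC2.UB_odd K hK E hE hodd
  AAc_le := Pool.Agent.Helper72.MVAA.AAc_le

/-- block B -/
theorem blockB : BlockB := fun K hK E hE =>
  blockB_of_A K hK E hE (Pool.Agent.Helper84.MVA.blockA K hK)

/-- block N -/
theorem blockN : BlockN := fun M δ hδ => Pool.Agent.Helper29.MVN.blockN hyp M δ hδ

end Pool.Agent.Helper71.MVN
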