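import Pool.Agent.Helper71.MVN.Def
import Pool.Agent.Helper60.MV.DefsC

/-!
Project MV, block N4: the count of labelled square-tiled surfaces and the count `cL` with marked
corners.
-/

namespace Pool.Agent.Helper71.MVN

open Filter Topology Pool.Agent.Helper60.MV

theorem orb_eq {X : Type} (v : Equiv.Perm X) (x : X) :
    orb v x = MulAction.orbit (Subgroup.zpowers v) x := by
  ext y
  constructor
  · rintro ⟨i, hi⟩
    exact ⟨⟨v ^ i, i, rfl⟩, hi⟩
  · rintro ⟨⟨_, i, rfl⟩, hi⟩
    exact ⟨i, hi⟩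

theorem mem_orb_self {X : Type} (v : Equiv.Perm X) (x : X) : x ∈ orb v x :=
  Equiv.Perm.SameCycle.refl v x

theorem orb_eq_of_mem {X : Type} {v : Equiv.Perm X} {x y : X} (h : y ∈ orb v x) :
    orb v y = orb v x := by
  ext z
  exact ⟨fun hz => Equiv.Perm.SameCycle.trans h hz,
    fun hz => Equiv.Perm.SameCycle.trans (Equiv.Perm.SameCycle.symm h) hz⟩

theorem orb_ncard {X : Type} [Finite X] (v : Equiv.Perm X) (x : X) :
    (orb v x).ncard = Function.minimalPeriod v x := by
  classical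
  have := Fintype.ofFinite X
  rw [orb_eq]
  have h := MulAction.minimalPeriod_eq_card (a := v) (b := x)
  rw [← Nat.card_eq_fintype_card] at h
  rw [← Nat.card_coe_set_eq, ← h]
  rfl

/-- marked surfaces correspond to labelled surfaces with a marked corner at each singularity -/
theorem isSurf_iff {X ρ : Type} [Finite X] (K : ρ → ℕ) (a r b : Equiv.Perm X) (x : ρ → X) :
    IsSurf K a r b x ↔ IsSquareTiled K a r b (fun i => orb (a * r * b) (x i)) := by
  constructor
  · intro h
    refine ⟨fun y => ⟨h.ha.invol y, h.hι.invol y, h.hb.invol y⟩,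
      fun y => ⟨h.ha.fpf y, h.hι.fpf y, h.hb.fpf y⟩, h.conn, fun i => ⟨x i, rfl⟩,
      fun i => by rw [orb_ncard, h.mark], ?_, ?_⟩
    · intro i j hij
      by_contra hne
      apply h.dist i j hne
      have : x j ∈ orb (a * r * b) (x i) := by
        simp only at hij
        rw [hij]; exact mem_orb_self _ _
      exact this
    · intro y hy
      rw [orb_ncard]
      exact h.rest y (fun i hi => hy i hi)
  · intro h
    refine ⟨⟨fun y => (h.invol y).1, fun y => (h.free y).1⟩,
      ⟨fun y => (h.invol y).2.1, fun y => (h.free y).2.1⟩,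
      ⟨fun y => (h.invol y).2.2, fun y => (h.free y).2.2⟩, h.connected, ?_, ?_, ?_⟩
    · intro i
      rw [← orb_ncard]
      exact h.angle i
    · intro i j hne hs
      apply hne
      apply h.labels
      exact (orb_eq_of_mem (show x j ∈ orb (a * r * b) (x i) from hs)).symm
    · intro y hy
      rw [← orb_ncard]
      exact h.flat y (fun i hi => hy i hi)

theorem orb_corner {X ρ : Type} {K : ρ → ℕ} {a r b : Equiv.Perm X} {c : ρ → Set X}
    (h : IsSquareTiled K a r b c) (x : (i : ρ) → c i) :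
    (fun i => orb (a * r * b) ((x i).1)) = c := by
  funext i
  obtain ⟨y, hy⟩ := h.vertex i
  have h2 : ((x i).1) ∈ orb (a * r * b) y := hy ▸ (x i).2
  exact (orb_eq_of_mem h2).trans hy.symm

/-- the choice of marked corners -/
noncomputable def surfEquiv {X ρ : Type} [Finite X] (K : ρ → ℕ) :
    {q : (Equiv.Perm X × Equiv.Perm X × Equiv.Perm X) × (ρ → X) //
      IsSurf K q.1.1 q.1.2.1 q.1.2.2 q.2} ≃
    Σ q : {q : Equiv.Perm X × Equiv.Perm X × Equiv.Perm X × (ρ → Set X) //
      IsSquareTiled K q.1 q.2.1 q.2.2.1 q.2.2.2}, ((i : ρ) → q.1.2.2.2 i) where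
  toFun q := ⟨⟨(q.1.1.1, q.1.1.2.1, q.1.1.2.2,
      fun i => orb (q.1.1.1 * q.1.1.2.1 * q.1.1.2.2) (q.1.2 i)), (isSurf_iff K _ _ _ _).1 q.2⟩,
    fun i => ⟨q.1.2 i, mem_orb_self _ _⟩⟩
  invFun z := ⟨((z.1.1.1, z.1.1.2.1, z.1.1.2.2.1), fun i => (z.2 i).1), by
    rw [isSurf_iff]
    have hz := z.1.2
    have := orb_corner hz z.2
    simp only at this ⊢
    rw [this]
    exact hz⟩
  left_inv := by
    rintro ⟨⟨⟨a, r, b⟩, x⟩, h⟩
    rfl
  right_inv := by
    rintro ⟨⟨⟨a, r, b, c⟩, h⟩, x⟩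
    have hc : (fun i => orb (a * r * b) ((x i).1)) = c := orb_corner h x
    apply Sigma.ext
    · apply Subtype.ext
      simp only [Prod.mk.injEq, true_and]
      exact hc
    · apply Function.hfunext rfl
      intro i j hij
      cases hij
      have h2 : orb (a * r * b) ((x i).1) = c i := congrFun hc i
      exact (Subtype.heq_iff_coe_eq (fun y => by
        show y ∈ orb (a * r * b) ((x i).1) ↔ y ∈ c i
        rw [h2])).2 rfl

theorem cL_eq_count {ρ : Type} [Fintype ρ] (K : ρ → ℕ) (L : ℕ) :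
    cL K L = (∏ i, (K i : ℝ)) * count K L := by
  classical
  unfold cL count
  rw [← mul_div_assoc]
  congr 1
  rw [Nat.card_congr (surfEquiv (X := Fin (2 * L)) K)]
  have : Finite {q : Equiv.Perm (Fin (2 * L)) × Equiv.Perm (Fin (2 * L)) ×
    Equiv.Perm (Fin (2 * L)) × (ρ → Set (Fin (2 * L))) //
      IsSquareTiled K q.1 q.2.1 q.2.2.1 q.2.2.2} := inferInstance
  have := Fintype.ofFinite {q : Equiv.Perm (Fin (2 * L)) × Equiv.Perm (Fin (2 * L)) ×
    Equiv.Perm (Fin (2 * L)) × (ρ → Set (Fin (2 * L))) //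
      IsSquareTiled K q.1 q.2.1 q.2.2.1 q.2.2.2}
  rw [Nat.card_sigma]
  have hpi : ∀ q : {q : Equiv.Perm (Fin (2 * L)) × Equiv.Perm (Fin (2 * L)) ×
    Equiv.Perm (Fin (2 * L)) × (ρ → Set (Fin (2 * L))) //
      IsSquareTiled K q.1 q.2.1 q.2.2.1 q.2.2.2},
      Nat.card ((i : ρ) → q.1.2.2.2 i) = ∏ i, K i := by
    intro q
    rw [Nat.card_pi]
    apply Finset.prod_congr rfl
    intro i _
    rw [Nat.card_coe_set_eq]
    exact q.2.angle i
  rw [Finset.sum_congr rfl (fun q _ => hpi q)]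
  rw [Finset.sum_const, Finset.card_univ, ← Nat.card_eq_fintype_card, smul_eq_mul]
  push_cast
  ring

end Pool.Agent.Helper71.MVN
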