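import Pool.Agent.Helper71.MVN.Count

/-!
Project MV, block N4: the final theorem from blockB and blockN.
-/

namespace Pool.Agent.Helper71.MVN

open Filter Topology Pool.Agent.Helper60.MV Finset

/-- statement of blockB -/
def BlockB : Prop := ∀ {ρ : Type} [Fintype ρ] [Nonempty ρ] (K : ρ → ℕ) (_ : ∀ i, Odd (K i)) (E : ℕ)
    (_ : ∑ i, K i = 2 * E),
    Tendsto (fun N : ℕ => (∑ L ∈ range (2 * N + 1), cL K L) / (N : ℝ) ^ E) atTop
      (𝓝 (2 ^ E * (2 * Yconn K) / (E.factorial : ℝ)))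

/-- statement of blockN -/
def BlockN : Prop := ∀ (M : ℕ) (δ : ℝ) (_ : 0 < δ), ∃ E₀ : ℕ, ∀ {ρ : Type} [Fintype ρ] (K : ρ → ℕ)
    (_ : ∀ i, Odd (K i)) (E : ℕ) (_ : ∑ i, K i = 2 * E) (_ : E₀ ≤ E) (_ : Even E)
    (_ : ones K ≤ M), |Yconn K / (bE E / Real.pi) - 1| ≤ δ

theorem sum_angles {n : ℕ} (k : Fin n → ℕ) (p : ℕ) :
    ∑ i, angles k p i = ∑ i, k i + 2 * n + p := by
  rw [Fintype.sum_sum_type]
  simp only [angles, Sum.elim_inl, Sum.elim_inr, sum_add_distrib, sum_const, card_univ,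
    Fintype.card_fin, smul_eq_mul]
  ring

theorem prod_angles {n : ℕ} (k : Fin n → ℕ) (p : ℕ) :
    ∏ i, (angles k p i : ℝ) = ∏ i, ((k i : ℝ) + 2) := by
  rw [Fintype.prod_sum_type]
  simp only [angles, Sum.elim_inl, Sum.elim_inr, Nat.cast_add, Nat.cast_ofNat, Nat.cast_one,
    prod_const_one, mul_one]

theorem odd_angles {n : ℕ} (k : Fin n → ℕ) (p : ℕ) (hk : ∀ i, Odd (k i)) (i : Fin n ⊕ Fin p) :
    Odd (angles k p i) := by
  rcases i with i | i
  · obtain ⟨m, hm⟩ := hk i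
    exact ⟨m + 1, by simp only [angles, Sum.elim_inl]; omega⟩
  · exact ⟨0, by simp [angles]⟩

theorem ones_angles {n : ℕ} (k : Fin n → ℕ) (p : ℕ) :
    ones (angles k p) ≤ p := by
  classical
  unfold ones
  have : (univ.filter (fun i => angles k p i = 1)) ⊆ univ.image (Sum.inr : Fin p → Fin n ⊕ Fin p) := by
    intro i hi
    rw [mem_filter] at hi
    rcases i with i | i
    · exfalso
      have := hi.2
      simp only [angles, Sum.elim_inl] at this
      omega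
    · exact mem_image_of_mem _ (mem_univ _)
  refine (card_le_card this).trans (card_image_le.trans ?_)
  rw [card_univ, Fintype.card_fin]

theorem parity {n : ℕ} (k : Fin n → ℕ) (hk : ∀ i, Odd (k i)) : (∑ i, k i) % 2 = n % 2 := by
  have h : ∀ i, k i % 2 = 1 := fun i => Nat.odd_iff.1 (hk i)
  rw [sum_nat_mod, sum_congr rfl (fun i _ => h i)]
  simp

/-- the dimension -/
theorem dim_eq {g n p : ℕ} (k : Fin n → ℕ) (hs : ∑ i, k i + 4 = 4 * g + p) :
    ∑ i, angles k p i = 2 * (2 * g + n + p - 2) := by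
  rw [sum_angles]
  omega

theorem dim_even {g n p : ℕ} (k : Fin n → ℕ) (hk : ∀ i, Odd (k i))
    (hs : ∑ i, k i + 4 = 4 * g + p) : Even (2 * g + n + p - 2) := by
  have h1 := parity k hk
  have h2 := sum_angles k p
  rw [Nat.even_iff]
  omega

/-- the limit of the counting function -/
theorem volN_tendsto (hB : BlockB) {g n p : ℕ} (k : Fin n → ℕ) (hk : ∀ i, Odd (k i))
    (hs : ∑ i, k i + 4 = 4 * g + p) (hn : 1 ≤ n + p) :
    Tendsto (fun N : ℕ => volN g k p N) atTop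
      (𝓝 (2 * ((2 * g + n + p - 2 : ℕ) : ℝ) * (2 ^ (2 * g + n + p - 2) *
        (2 * Yconn (angles k p)) / ((2 * g + n + p - 2).factorial : ℝ)) /
          ∏ i, ((k i : ℝ) + 2))) := by
  have : Nonempty (Fin n ⊕ Fin p) := by
    rcases Nat.eq_zero_or_pos n with h | h
    · exact ⟨Sum.inr ⟨0, by omega⟩⟩
    · exact ⟨Sum.inl ⟨0, h⟩⟩
  have h := hB (angles k p) (odd_angles k p hk) (2 * g + n + p - 2) (dim_eq k hs)
  have hP : (∏ i, ((k i : ℝ) + 2)) ≠ 0 := by
    apply prod_ne_zero_iff.2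
    intro i _
    positivity
  have h2 := (h.const_mul (2 * ((2 * g + n + p - 2 : ℕ) : ℝ))).div_const (∏ i, ((k i : ℝ) + 2))
  refine h2.congr (fun N => ?_)
  unfold volN
  rw [sum_congr rfl (fun L _ => cL_eq_count (angles k p) L), ← mul_sum, prod_angles]
  field_simp

/-- Main theorem from the blocks. -/
theorem final (hB : BlockB) (hN : BlockN) :
    (∀ (g n p : ℕ) (k : Fin n → ℕ), (∀ i, Odd (k i)) → ∑ i, k i + 4 = 4 * g + p → 1 ≤ n + p →
      Tendsto (fun N : ℕ => volN g k p N) atTop (𝓝 (Vol g k p))) ∧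
    (∀ (M : ℕ) (δ : ℝ), 0 < δ → ∃ g₀ : ℕ, ∀ g ≥ g₀, ∀ (n p : ℕ) (k : Fin n → ℕ), p ≤ M →
      (∀ i, Odd (k i)) → ∑ i, k i + 4 = 4 * g + p →
      |Vol g k p / (4 / Real.pi * 2 ^ p * ∏ i, ((2 : ℝ) ^ (k i + 2) / ((k i : ℝ) + 2))) - 1| ≤ δ ∧
      |eps g k p - (2 ^ p - 1)| ≤ δ) := by
  have hV : ∀ (g n p : ℕ) (k : Fin n → ℕ), (∀ i, Odd (k i)) → ∑ i, k i + 4 = 4 * g + p →
      1 ≤ n + p → Vol g k p = 2 * ((2 * g + n + p - 2 : ℕ) : ℝ) * (2 ^ (2 * g + n + p - 2) *
        (2 * Yconn (angles k p)) / ((2 * g + n + p - 2).factorial : ℝ)) /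
          ∏ i, ((k i : ℝ) + 2) :=
    fun g n p k hk hs hn => (volN_tendsto hB k hk hs hn).limUnder_eq
  constructor
  · intro g n p k hk hs hn
    rw [hV g n p k hk hs hn]
    exact volN_tendsto hB k hk hs hn
  · intro M δ hδ
    obtain ⟨E₀, hE₀⟩ := hN M (δ / 2 ^ M) (by positivity)
    refine ⟨E₀ + 2, ?_⟩
    intro g hg n p k hp hk hs
    have hn : 1 ≤ n + p := by
      by_contra hcon
      have hn0 : n = 0 := by omega
      subst hn0
      simp at hs
      omega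
    have hE1 : 1 ≤ 2 * g + n + p - 2 := by omega
    have h := hE₀ (angles k p) (odd_angles k p hk) (2 * g + n + p - 2) (dim_eq k hs) (by omega)
      (dim_even k hk hs) ((ones_angles k p).trans hp)
    have hP : (0 : ℝ) < ∏ i, ((k i : ℝ) + 2) := prod_pos (fun i _ => by positivity)
    have hpow : (2 : ℝ) ^ p * ∏ i, (2 : ℝ) ^ (k i + 2) = 4 ^ (2 * g + n + p - 2) := by
      rw [show (4 : ℝ) = 2 ^ 2 by norm_num, ← pow_mul, ← dim_eq k hs, sum_angles,
        prod_pow_eq_pow_sum, sum_add_distrib, ← pow_add]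
      congr 1
      simp only [sum_const, card_univ, Fintype.card_fin, smul_eq_mul]
      ring
    have hb : (0 : ℝ) < bE (2 * g + n + p - 2) := by
      unfold bE
      positivity
    have hpi := Real.pi_pos
    have key : Vol g k p / (4 / Real.pi * 2 ^ p * ∏ i, ((2 : ℝ) ^ (k i + 2) / ((k i : ℝ) + 2)))
        = Yconn (angles k p) / (bE (2 * g + n + p - 2) / Real.pi) := by
      rw [hV g n p k hk hs hn, prod_div_distrib]
      have e1 : 4 / Real.pi * 2 ^ p * ((∏ i, (2 : ℝ) ^ (k i + 2)) / ∏ i, ((k i : ℝ) + 2)) =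
          4 / Real.pi * 4 ^ (2 * g + n + p - 2) / ∏ i, ((k i : ℝ) + 2) := by
        rw [← hpow]; ring
      rw [e1]
      obtain ⟨E, hE⟩ : ∃ E, 2 * g + n + p - 2 = E + 1 := ⟨2 * g + n + p - 3, by omega⟩
      rw [hE] at hb ⊢
      have h4 : (4 : ℝ) ^ (E + 1) = 2 ^ (E + 1) * 2 ^ (E + 1) := by
        rw [← mul_pow]; norm_num
      rw [h4]
      unfold bE
      rw [Nat.factorial_succ, Nat.add_sub_cancel]
      push_cast
      have hf : (0 : ℝ) < (E.factorial : ℝ) := by positivity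
      have hE1 : (0 : ℝ) < (E : ℝ) + 1 := by positivity
      field_simp
      ring
    have hM : δ / 2 ^ M ≤ δ := div_le_self hδ.le (one_le_pow₀ (by norm_num))
    refine ⟨?_, ?_⟩
    · rw [key]
      exact h.trans hM
    · have e2 : eps g k p - (2 ^ p - 1) = 2 ^ p * (Vol g k p /
          (4 / Real.pi * 2 ^ p * ∏ i, ((2 : ℝ) ^ (k i + 2) / ((k i : ℝ) + 2))) - 1) := by
        unfold eps
        have hQ : (∏ i, ((2 : ℝ) ^ (k i + 2) / ((k i : ℝ) + 2))) ≠ 0 :=
          (prod_pos (fun i _ => by positivity)).ne'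
        field_simp
        ring
      rw [e2, abs_mul, abs_of_pos (by positivity : (0 : ℝ) < 2 ^ p), key]
      calc (2 : ℝ) ^ p * |Yconn (angles k p) / (bE (2 * g + n + p - 2) / Real.pi) - 1|
          ≤ 2 ^ M * (δ / 2 ^ M) := mul_le_mul
            (pow_le_pow_right₀ (by norm_num) hp) h (abs_nonneg _) (by positivity)
        _ = δ := by field_simp

end Pool.Agent.Helper71.MVN
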